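import Pool.Agent.H65.BU.ExA

/-!
# Project BD: families of almost commuting projections

`P T` = the projection onto the intersection of the ranges of the `P {v}`, `v ∈ T`. If the product of two of the
`P {v}` is `ε`-close to `P {u, v}`, then every product of the `P {v}` is `C ε`-close to `P T` (`exists_prod`), and the
products `EE` of the `P {v}` and the `1 - P {v}` behave up to `C ε` like commuting projections (`exists_kas`).

PROOF of `exists_dist` (distance to the intersection): induction; let `g` be in the intersection for `T'`,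
`d = ‖g - P w g‖`, `h = g - P {v, w} g`: `P w h = (P w P v - P {v, w}) h` is small, so `P w g` is `4 ε d`-close to the
range of `P v` for all `v ∈ T'`, and `g' = P T' (P w g)` satisfies `‖g' - P w g'‖ ≤ d / 2`; iterate.
-/

set_option autoImplicit false

open Finset

namespace Pool.Agent.H45.BD

open Pool.Agent.H65.BU

/-- a family of projections: `P T` projects onto the intersection of the ranges of the `P {v}`, `v ∈ T`, and
`P {u, v}` is almost the product of `P {u}` and `P {v}` -/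
structure PF {V X : Type} [DecidableEq V] [NormedAddCommGroup X] [NormedSpace ℂ X]
    (P : Finset V → X →L[ℂ] X) (ε : ℝ) : Prop where
  norm : ∀ T, ‖P T‖ ≤ 1
  lo : ∀ T T', T ⊆ T' → P T * P T' = P T'
  hi : ∀ T T', T ⊆ T' → P T' * P T = P T'
  inter : ∀ T x, (∀ v ∈ T, P {v} x = x) → P T x = x
  pair : ∀ u v, u ≠ v → ‖P {u} * P {v} - P {u, v}‖ ≤ ε

section dist

variable {V X : Type} [DecidableEq V] [NormedAddCommGroup X] [NormedSpace ℂ X]
  {P : Finset V → X →L[ℂ] X} {ε : ℝ}

theorem PF.nle (h : PF P ε) (T : Finset V) (x : X) : ‖P T x‖ ≤ ‖x‖ :=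
  ((P T).le_of_opNorm_le (h.norm T) x).trans (le_of_eq (one_mul _))

theorem PF.lo' (h : PF P ε) {T T' : Finset V} (hT : T ⊆ T') (x : X) : P T (P T' x) = P T' x :=
  DFunLike.congr_fun (h.lo T T' hT) x

theorem PF.hi' (h : PF P ε) {T T' : Finset V} (hT : T ⊆ T') (x : X) : P T' (P T x) = P T' x :=
  DFunLike.congr_fun (h.hi T T' hT) x

theorem PF.empty (h : PF P ε) (x : X) : P ∅ x = x := h.inter ∅ x fun v hv => absurd hv (notMem_empty v)

/-- one step: after projection to the range of `P {w}` we are still close to the range of `P {v}` -/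
theorem PF.near (h : PF P ε) (hε : ε ≤ 1 / 2) (hε0 : 0 ≤ ε) {v w : V} (hvw : v ≠ w) {g : X} (hg : P {v} g = g) :
    ‖P {w} g - P {v} (P {w} g)‖ ≤ 4 * ε * ‖g - P {w} g‖ := by
  have hv : ({v} : Finset V) ⊆ {v, w} := by simp
  have hw : ({w} : Finset V) ⊆ {v, w} := by simp
  set D := P {v, w} g with hD
  set y := g - D with hy
  have e1 : P {v} y = y := by rw [hy, map_sub, hg, hD, h.lo' hv]
  have e2 : P {v, w} y = 0 := by
    rw [hy, map_sub, hD, h.lo' (Subset.refl _), sub_self]
  have e3 : P {w} y = (P {w} * P {v} - P {w, v}) y := by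
    show P {w} y = P {w} (P {v} y) - P {w, v} y
    rw [e1, pair_comm w v, e2, sub_zero]
  have e4 : ‖P {w} y‖ ≤ ε * ‖y‖ := by
    rw [e3]
    exact ContinuousLinearMap.le_of_opNorm_le _ (h.pair w v hvw.symm) y
  have e5 : P {w} D = D := by rw [hD, h.lo' hw]
  have e6 : P {v} D = D := by rw [hD, h.lo' hv]
  have e7 : y - P {w} y = g - P {w} g := by
    rw [hy, map_sub, e5]
    abel
  have e8 : ‖y‖ ≤ ε * ‖y‖ + ‖g - P {w} g‖ := by
    calc ‖y‖ = ‖P {w} y + (y - P {w} y)‖ := by rw [add_sub_cancel]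
      _ ≤ ‖P {w} y‖ + ‖y - P {w} y‖ := norm_add_le _ _
      _ ≤ ε * ‖y‖ + ‖g - P {w} g‖ := by rw [e7]; linarith
  have e9 : ‖y‖ ≤ 2 * ‖g - P {w} g‖ := by
    have : ε * ‖y‖ ≤ 1 / 2 * ‖y‖ := mul_le_mul_of_nonneg_right hε (norm_nonneg _)
    linarith
  have e10 : P {w} g = D + P {w} y := by
    rw [hy, map_sub, e5]
    abel
  have e11 : P {w} g - P {v} (P {w} g) = P {w} y - P {v} (P {w} y) := by
    rw [e10, map_add, e6]
    abel
  rw [e11]
  have e12 : ‖P {v} (P {w} y)‖ ≤ ‖P {w} y‖ := h.nle _ _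
  calc ‖P {w} y - P {v} (P {w} y)‖ ≤ ‖P {w} y‖ + ‖P {v} (P {w} y)‖ := norm_sub_le _ _
    _ ≤ 2 * (ε * ‖y‖) := by linarith
    _ ≤ 2 * (ε * (2 * ‖g - P {w} g‖)) := by
        have := mul_le_mul_of_nonneg_left e9 hε0
        linarith
    _ = 4 * ε * ‖g - P {w} g‖ := by ring

end dist

/-- the distance to the intersection -/
theorem exists_dist (k : ℕ) : ∃ C : ℝ, 0 ≤ C ∧ ∃ ε₀ : ℝ, 0 < ε₀ ∧ ∀ (V X : Type) [DecidableEq V]
    [NormedAddCommGroup X] [NormedSpace ℂ X] [CompleteSpace X] (P : Finset V → X →L[ℂ] X) (ε : ℝ),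
    PF P ε → 0 ≤ ε → ε ≤ ε₀ → ∀ T : Finset V, T.card ≤ k → ∀ (x : X) (δ : ℝ), 0 ≤ δ →
    (∀ v ∈ T, ‖x - P {v} x‖ ≤ δ) → ‖x - P T x‖ ≤ C * δ := by
  induction k with
  | zero =>
    refine ⟨0, le_refl _, 1, one_pos, fun V X _ _ _ _ P ε h _ _ T hT x δ hδ _ => ?_⟩
    rw [card_eq_zero.1 (Nat.le_zero.1 hT), h.empty, sub_self, norm_zero, zero_mul]
  | succ k ih =>
    obtain ⟨C, hC, ε₀, hε₀, ih⟩ := ih
    refine ⟨18 * C + 8, by positivity, min ε₀ (1 / (16 * (C + 1))), lt_min hε₀ (by positivity), ?_⟩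
    intro V X _ _ _ _ P ε h hε hε' T hT x δ hδ hx
    have h1 : ε ≤ ε₀ := hε'.trans (min_le_left _ _)
    have h2 : ε ≤ 1 / (16 * (C + 1)) := hε'.trans (min_le_right _ _)
    have h2' : 16 * (C + 1) * ε ≤ 1 := by
      rw [le_div_iff₀ (by positivity)] at h2
      linarith
    have h3 : ε ≤ 1 / 2 := by nlinarith
    have h4 : 16 * (C * ε) ≤ 1 := by nlinarith
    rcases T.eq_empty_or_nonempty with rfl | ⟨w, hw⟩
    · rw [h.empty, sub_self, norm_zero]
      positivity
    set T' := T.erase w with hT'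
    have hT'c : T'.card ≤ k := by
      rw [hT', card_erase_of_mem hw]
      omega
    have hwT' : ∀ v ∈ T', v ≠ w := fun v hv => (mem_erase.1 hv).1
    have hT'T : ∀ v ∈ T', v ∈ T := fun v hv => (mem_erase.1 hv).2
    -- one step
    have hstep : ∀ g, P T' g = g → ∃ g', P T' g' = g' ∧ ‖g - g'‖ ≤ 2 * ‖g - P {w} g‖ ∧
        ‖g' - P {w} g'‖ ≤ 1 / 2 * ‖g - P {w} g‖ := by
      intro g hg
      set d := ‖g - P {w} g‖ with hd
      have hd0 : 0 ≤ d := norm_nonneg _
      have hgv : ∀ v ∈ T', P {v} g = g := by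
        intro v hv
        rw [← hg, h.lo' (singleton_subset_iff.2 hv)]
      have e1 : ∀ v ∈ T', ‖P {w} g - P {v} (P {w} g)‖ ≤ 4 * ε * d := fun v hv =>
        h.near h3 hε (hwT' v hv) (hgv v hv)
      have e2 := ih V X P ε h hε h1 T' hT'c (P {w} g) (4 * ε * d) (by positivity) e1
      have e3 : C * (4 * ε * d) ≤ 1 / 4 * d := by
        have : 16 * (C * ε) * d ≤ 1 * d := mul_le_mul_of_nonneg_right h4 hd0
        linarith
      refine ⟨P T' (P {w} g), h.lo' (Subset.refl _) _, ?_, ?_⟩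
      · calc ‖g - P T' (P {w} g)‖ = ‖(g - P {w} g) + (P {w} g - P T' (P {w} g))‖ := by
              congr 1
              abel
          _ ≤ ‖g - P {w} g‖ + ‖P {w} g - P T' (P {w} g)‖ := norm_add_le _ _
          _ ≤ 2 * d := by linarith
      · set y := P T' (P {w} g) with hy
        have e4 : P {w} g - P {w} y = P {w} (P {w} g - y) := by
          rw [map_sub, h.lo' (Subset.refl _)]
        calc ‖y - P {w} y‖ = ‖(P {w} g - P {w} y) - (P {w} g - y)‖ := by
              congr 1
              abel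
          _ ≤ ‖P {w} g - P {w} y‖ + ‖P {w} g - y‖ := norm_sub_le _ _
          _ ≤ ‖P {w} g - y‖ + ‖P {w} g - y‖ := by
              rw [e4]
              have := h.nle {w} (P {w} g - y)
              linarith
          _ ≤ 1 / 2 * d := by linarith
    -- the iteration
    obtain ⟨ϕ, hϕ⟩ : ∃ ϕ : X → X, ∀ g, P T' g = g → P T' (ϕ g) = ϕ g ∧ ‖g - ϕ g‖ ≤ 2 * ‖g - P {w} g‖ ∧
        ‖ϕ g - P {w} (ϕ g)‖ ≤ 1 / 2 * ‖g - P {w} g‖ := by
      classical
      refine ⟨fun g => if hg : P T' g = g then (hstep g hg).choose else 0, fun g hg => ?_⟩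
      beta_reduce
      rw [dif_pos hg]
      exact (hstep g hg).choose_spec
    set g₀ := P T' x with hg₀
    set F : ℕ → X := fun n => ϕ^[n] g₀ with hF
    have hFs : ∀ n, F (n + 1) = ϕ (F n) := fun n => Function.iterate_succ_apply' ϕ n g₀
    have hF1 : ∀ n, P T' (F n) = F n := by
      intro n
      induction n with
      | zero => exact h.lo' (Subset.refl _) x
      | succ n ihn =>
        rw [hFs]
        exact (hϕ _ ihn).1
    set d₀ := ‖g₀ - P {w} g₀‖ with hd₀
    have hd₀0 : 0 ≤ d₀ := norm_nonneg _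
    have hF2 : ∀ n, ‖F n - P {w} (F n)‖ ≤ (1 / 2) ^ n * d₀ := by
      intro n
      induction n with
      | zero =>
        rw [pow_zero, one_mul]
        exact le_of_eq rfl
      | succ n ihn =>
        have e1 := (hϕ _ (hF1 n)).2.2
        rw [hFs, pow_succ]
        linarith
    have hF3 : ∀ n, dist (F n) (F (n + 1)) ≤ 2 * d₀ * (1 / 2) ^ n := by
      intro n
      have e1 := (hϕ _ (hF1 n)).2.1
      rw [dist_eq_norm, hFs]
      have e2 := hF2 n
      linarith
    have hCau : CauchySeq F := cauchySeq_of_le_geometric (1 / 2) (2 * d₀) (by norm_num) hF3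
    obtain ⟨g, hg⟩ := cauchySeq_tendsto_of_complete hCau
    have hd : dist (F 0) g ≤ 2 * d₀ / (1 - 1 / 2) :=
      dist_le_of_le_geometric_of_tendsto₀ (1 / 2) (2 * d₀) (by norm_num) hF3 hg
    have hd' : ‖g₀ - g‖ ≤ 4 * d₀ := by
      rw [dist_eq_norm] at hd
      have e1 : F 0 = g₀ := rfl
      rw [e1] at hd
      refine hd.trans (le_of_eq ?_)
      ring
    have hgT : P T' g = g := by
      refine tendsto_nhds_unique (((P T').continuous.tendsto g).comp hg) ?_
      have e1 : (fun y => P T' y) ∘ F = F := funext hF1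
      exact e1.symm ▸ hg
    have hgw : P {w} g = g := by
      have e1 : Filter.Tendsto (fun n => F n - P {w} (F n)) Filter.atTop (nhds (g - P {w} g)) :=
        hg.sub (((P {w}).continuous.tendsto g).comp hg)
      have e2 : Filter.Tendsto (fun n => F n - P {w} (F n)) Filter.atTop (nhds 0) := by
        refine squeeze_zero_norm hF2 ?_
        have e3 := (tendsto_pow_atTop_nhds_zero_of_lt_one (r := (1 / 2 : ℝ)) (by norm_num)
          (by norm_num)).mul_const d₀
        simpa using e3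
      have e3 := tendsto_nhds_unique e1 e2
      exact (sub_eq_zero.1 e3).symm
    have hgg : P T g = g := by
      refine h.inter T g fun v hv => ?_
      by_cases hvw : v = w
      · rw [hvw, hgw]
      · rw [← hgT, h.lo' (singleton_subset_iff.2 (mem_erase.2 ⟨hvw, hv⟩))]
    -- the estimates
    have f1 : ‖x - g₀‖ ≤ C * δ := ih V X P ε h hε h1 T' hT'c x δ hδ fun v hv => hx v (hT'T v hv)
    have f2 : d₀ ≤ (2 * C + 1) * δ := by
      have e1 : g₀ - P {w} g₀ = (x - P {w} x) - (x - g₀) + P {w} (x - g₀) := by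
        rw [map_sub]
        abel
      rw [hd₀, e1]
      have e2 := norm_add_le ((x - P {w} x) - (x - g₀)) (P {w} (x - g₀))
      have e3 := norm_sub_le (x - P {w} x) (x - g₀)
      have e4 := h.nle {w} (x - g₀)
      have e5 := hx w hw
      linarith
    have f3 : ‖x - g‖ ≤ (9 * C + 4) * δ := by
      have e1 : x - g = (x - g₀) + (g₀ - g) := by abel
      rw [e1]
      have e2 := norm_add_le (x - g₀) (g₀ - g)
      linarith
    have f4 : x - P T x = (x - g) - P T (x - g) := by
      rw [map_sub, hgg]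
      abel
    rw [f4]
    have e1 := norm_sub_le (x - g) (P T (x - g))
    have e2 := h.nle T (x - g)
    linarith

section prod

variable {V X : Type} [NormedAddCommGroup X] [NormedSpace ℂ X]

private theorem pl_nil (F : V → X →L[ℂ] X) : (([] : List V).map F).prod = 1 := rfl

private theorem pl_cons (F : V → X →L[ℂ] X) (w : V) (l : List V) :
    ((w :: l).map F).prod = F w * (l.map F).prod := by rw [List.map_cons, List.prod_cons]

private theorem pl_append (F : V → X →L[ℂ] X) (l l' : List V) :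
    ((l ++ l').map F).prod = (l.map F).prod * (l'.map F).prod := by rw [List.map_append, List.prod_append]

theorem prod_norm {F : V → X →L[ℂ] X} (hF : ∀ v, ‖F v‖ ≤ 2) (l : List V) :
    ‖(l.map F).prod‖ ≤ 2 ^ l.length := by
  induction l with
  | nil =>
    rw [pl_nil, List.length_nil, pow_zero]
    exact ContinuousLinearMap.norm_id_le
  | cons w l ih =>
    rw [pl_cons, List.length_cons, pow_succ, mul_comm (2 ^ l.length) 2]
    exact (norm_mul_le _ _).trans (mul_le_mul (hF w) ih (norm_nonneg _) (by norm_num))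

theorem prod_comm_le {F : V → X →L[ℂ] X} (hF : ∀ v, ‖F v‖ ≤ 2) {Q : X →L[ℂ] X} {c : ℝ} (hc : 0 ≤ c)
    (hQ : ∀ v, ‖Q * F v - F v * Q‖ ≤ c) (l : List V) :
    ‖Q * (l.map F).prod - (l.map F).prod * Q‖ ≤ l.length * (2 ^ l.length * c) := by
  induction l with
  | nil =>
    rw [pl_nil, mul_one, one_mul, sub_self, norm_zero, List.length_nil, Nat.cast_zero, zero_mul]
  | cons w l ih =>
    set R := (l.map F).prod with hR
    have e : Q * (F w * R) - F w * R * Q = (Q * F w - F w * Q) * R + F w * (Q * R - R * Q) := by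
      noncomm_ring
    rw [pl_cons, ← hR, e, List.length_cons]
    have e1 := norm_add_le ((Q * F w - F w * Q) * R) (F w * (Q * R - R * Q))
    have e2 : ‖(Q * F w - F w * Q) * R‖ ≤ c * 2 ^ l.length :=
      (norm_mul_le _ _).trans (mul_le_mul (hQ w) (prod_norm hF l) (norm_nonneg _) hc)
    have e3 : ‖F w * (Q * R - R * Q)‖ ≤ 2 * (l.length * (2 ^ l.length * c)) :=
      (norm_mul_le _ _).trans (mul_le_mul (hF w) ih (norm_nonneg _) (by norm_num))
    have e4 : 0 ≤ c * 2 ^ l.length := by positivity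
    push_cast
    rw [pow_succ]
    have e5 : ((l.length : ℝ) + 1) * (2 ^ l.length * 2 * c) =
        2 * (l.length * (2 ^ l.length * c)) + 2 * (c * 2 ^ l.length) := by ring
    rw [e5]
    linarith

/-- move `Q` from the left to the factor `F v` -/
theorem prod_left {F : V → X →L[ℂ] X} (hF : ∀ v, ‖F v‖ ≤ 2) {Q : X →L[ℂ] X} {c : ℝ} (hc : 0 ≤ c)
    (hQ : ∀ v, ‖Q * F v - F v * Q‖ ≤ c) (l₁ l₂ : List V) (v : V) {n : ℕ}
    (hn : (l₁ ++ v :: l₂).length ≤ n) :
    ‖Q * ((l₁ ++ v :: l₂).map F).prod - (l₁.map F).prod * (Q * F v) * (l₂.map F).prod‖ ≤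
      n * (2 ^ n * c) := by
  set R₁ := (l₁.map F).prod with hR₁
  set R₂ := (l₂.map F).prod with hR₂
  have e : Q * (R₁ * (F v * R₂)) - R₁ * (Q * F v) * R₂ = (Q * R₁ - R₁ * Q) * (F v * R₂) := by
    noncomm_ring
  rw [pl_append, pl_cons, ← hR₁, ← hR₂, e]
  have hlen : l₁.length + (l₂.length + 1) ≤ n := by
    simpa [List.length_append, List.length_cons] using hn
  have e1 := prod_comm_le hF hc hQ l₁
  have e2 : ‖F v * R₂‖ ≤ 2 * 2 ^ l₂.length :=
    (norm_mul_le _ _).trans (mul_le_mul (hF v) (prod_norm hF l₂) (norm_nonneg _) (by norm_num))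
  have e3 : (2 : ℝ) ^ l₁.length * (2 * 2 ^ l₂.length) ≤ 2 ^ n := by
    rw [mul_comm (2 : ℝ) (2 ^ l₂.length), ← pow_succ, ← pow_add]
    exact pow_le_pow_right₀ (by norm_num) hlen
  have e4 : (l₁.length : ℝ) ≤ n := by
    have : l₁.length ≤ n := by omega
    exact_mod_cast this
  calc ‖(Q * R₁ - R₁ * Q) * (F v * R₂)‖ ≤ (l₁.length * (2 ^ l₁.length * c)) * (2 * 2 ^ l₂.length) :=
        (norm_mul_le _ _).trans (mul_le_mul e1 e2 (norm_nonneg _) (by positivity))
    _ = l₁.length * ((2 ^ l₁.length * (2 * 2 ^ l₂.length)) * c) := by ring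
    _ ≤ n * (2 ^ n * c) := by
        refine mul_le_mul e4 (mul_le_mul_of_nonneg_right e3 hc) (by positivity) (by positivity)

/-- move `Q` from the right to the factor `F v` -/
theorem prod_right {F : V → X →L[ℂ] X} (hF : ∀ v, ‖F v‖ ≤ 2) {Q : X →L[ℂ] X} {c : ℝ} (hc : 0 ≤ c)
    (hQ : ∀ v, ‖Q * F v - F v * Q‖ ≤ c) (l₁ l₂ : List V) (v : V) {n : ℕ}
    (hn : (l₁ ++ v :: l₂).length ≤ n) :
    ‖((l₁ ++ v :: l₂).map F).prod * Q - (l₁.map F).prod * (F v * Q) * (l₂.map F).prod‖ ≤
      n * (2 ^ n * c) := by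
  set R₁ := (l₁.map F).prod with hR₁
  set R₂ := (l₂.map F).prod with hR₂
  have e : R₁ * (F v * R₂) * Q - R₁ * (F v * Q) * R₂ = -(R₁ * F v * (Q * R₂ - R₂ * Q)) := by
    noncomm_ring
  rw [pl_append, pl_cons, ← hR₁, ← hR₂, e, norm_neg]
  have hlen : l₁.length + (l₂.length + 1) ≤ n := by
    simpa [List.length_append, List.length_cons] using hn
  have e1 := prod_comm_le hF hc hQ l₂
  have e2 : ‖R₁ * F v‖ ≤ 2 ^ l₁.length * 2 :=
    (norm_mul_le _ _).trans (mul_le_mul (prod_norm hF l₁) (hF v) (norm_nonneg _) (by positivity))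
  have e3 : (2 ^ l₁.length * 2) * (2 : ℝ) ^ l₂.length ≤ 2 ^ n := by
    rw [← pow_succ, ← pow_add]
    exact pow_le_pow_right₀ (by norm_num) (by omega)
  have e4 : (l₂.length : ℝ) ≤ n := by
    have : l₂.length ≤ n := by omega
    exact_mod_cast this
  calc ‖R₁ * F v * (Q * R₂ - R₂ * Q)‖ ≤ (2 ^ l₁.length * 2) * (l₂.length * (2 ^ l₂.length * c)) :=
        (norm_mul_le _ _).trans (mul_le_mul e2 e1 (norm_nonneg _) (by positivity))
    _ = l₂.length * (((2 ^ l₁.length * 2) * 2 ^ l₂.length) * c) := by ring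
    _ ≤ n * (2 ^ n * c) := by
        refine mul_le_mul e4 (mul_le_mul_of_nonneg_right e3 hc) (by positivity) (by positivity)

end prod

section EE

variable {V X : Type} [DecidableEq V] [NormedAddCommGroup X] [NormedSpace ℂ X]
  {P : Finset V → X →L[ℂ] X} {ε : ℝ}

theorem PF.comm (h : PF P ε) (hε : 0 ≤ ε) (u v : V) : ‖P {u} * P {v} - P {v} * P {u}‖ ≤ 2 * ε := by
  by_cases huv : u = v
  · rw [huv, sub_self, norm_zero]
    positivity
  · have e1 := h.pair u v huv
    have e2 := h.pair v u (Ne.symm huv)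
    rw [pair_comm v u] at e2
    have e3 : P {u} * P {v} - P {v} * P {u} =
        (P {u} * P {v} - P {u, v}) - (P {v} * P {u} - P {u, v}) := by abel
    rw [e3]
    exact (norm_sub_le _ _).trans (by linarith)

theorem PF.idem (h : PF P ε) (T : Finset V) : P T * P T = P T := h.lo T T (Subset.refl _)

theorem PF.one_sub (h : PF P ε) (T : Finset V) : ‖1 - P T‖ ≤ 2 := by
  refine (norm_sub_le _ _).trans ?_
  have h1 := h.norm T
  have h2 : ‖(1 : X →L[ℂ] X)‖ ≤ 1 := ContinuousLinearMap.norm_id_le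
  linarith

/-- the products of the projections, first form: `P {v}` absorbs -/
theorem PF.prod_absorb (h : PF P ε) (hε : 0 ≤ ε) {l : List V} {v : V} (hv : v ∈ l) :
    ‖P {v} * (l.map fun u => P {u}).prod - (l.map fun u => P {u}).prod‖ ≤
      l.length * (2 ^ l.length * (2 * ε)) := by
  obtain ⟨s, t, rfl⟩ := List.append_of_mem hv
  have e1 := prod_left (F := fun u => P {u}) (fun u => (h.norm {u}).trans (by norm_num))
    (Q := P {v}) (c := 2 * ε) (by positivity) (fun u => h.comm hε v u) s t v (le_refl _)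
  rw [h.idem] at e1
  rwa [pl_append (fun u => P {u}) s (v :: t), pl_cons (fun u => P {u}) v t, ← mul_assoc,
    ← mul_assoc] at e1 ⊢

end EE

/-- every product of the projections is close to the projection onto the intersection -/
theorem exists_prod (n : ℕ) : ∃ C : ℝ, 0 ≤ C ∧ ∃ ε₀ : ℝ, 0 < ε₀ ∧ ∀ (V X : Type) [DecidableEq V]
    [NormedAddCommGroup X] [NormedSpace ℂ X] [CompleteSpace X] (P : Finset V → X →L[ℂ] X) (ε : ℝ),
    PF P ε → 0 ≤ ε → ε ≤ ε₀ → ∀ l : List V, l.length ≤ n →
    ‖(l.map fun v => P {v}).prod - P l.toFinset‖ ≤ C * ε := by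
  obtain ⟨C, hC, ε₀, hε₀, hd⟩ := exists_dist n
  refine ⟨C * (n * (2 ^ n * 2) * 2), by positivity, ε₀, hε₀, ?_⟩
  intro V X _ _ _ _ P ε h hε hε' l hl
  set T := l.toFinset with hT
  set R := (l.map fun v => P {v}).prod with hR
  have hTc : T.card ≤ n := (List.toFinset_card_le l).trans hl
  have e0 : ∀ l' : List V, (∀ v ∈ l', v ∈ T) → (l'.map fun v => P {v}).prod * P T = P T := by
    intro l' hl'
    induction l' with
    | nil => rw [List.map_nil, List.prod_nil, one_mul]
    | cons w l' ih =>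
      rw [List.map_cons, List.prod_cons, mul_assoc, ih fun v hv => hl' v (List.mem_cons_of_mem w hv),
        h.lo {w} T (singleton_subset_iff.2 (hl' w List.mem_cons_self))]
  have e0' : ∀ l' : List V, (∀ v ∈ l', v ∈ T) → P T * (l'.map fun v => P {v}).prod = P T := by
    intro l' hl'
    induction l' with
    | nil => rw [List.map_nil, List.prod_nil, mul_one]
    | cons w l' ih =>
      rw [List.map_cons, List.prod_cons, ← mul_assoc,
        h.hi {w} T (singleton_subset_iff.2 (hl' w List.mem_cons_self)),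
        ih fun v hv => hl' v (List.mem_cons_of_mem w hv)]
  have e1 : R * P T = P T := e0 l fun v hv => List.mem_toFinset.2 hv
  have e2 : P T * R = P T := e0' l fun v hv => List.mem_toFinset.2 hv
  refine ContinuousLinearMap.opNorm_le_bound _ (by positivity) fun x => ?_
  set y := x - P T x with hy
  have hyn : ‖y‖ ≤ 2 * ‖x‖ := by
    have f1 := norm_sub_le x (P T x)
    have f2 := h.nle T x
    rw [hy]
    linarith
  have e3 : (R - P T) x = R y := by
    show R x - P T x = R (x - P T x)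
    rw [map_sub]
    have : R (P T x) = P T x := DFunLike.congr_fun e1 x
    rw [this]
  have e4 : P T (R y) = 0 := by
    have f1 : P T (R y) = P T y := DFunLike.congr_fun e2 y
    rw [f1, hy, map_sub, h.lo' (Subset.refl _), sub_self]
  have e5 : ∀ v ∈ T, ‖R y - P {v} (R y)‖ ≤ n * (2 ^ n * 2) * 2 * ε * ‖x‖ := by
    intro v hv
    have f1 := h.prod_absorb hε (List.mem_toFinset.1 hv)
    rw [← hR] at f1
    have f2 : ‖P {v} * R - R‖ ≤ n * (2 ^ n * (2 * ε)) := by
      refine f1.trans ?_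
      have g1 : (l.length : ℝ) ≤ n := by exact_mod_cast hl
      have g2 : (2 : ℝ) ^ l.length ≤ 2 ^ n := pow_le_pow_right₀ (by norm_num) hl
      refine mul_le_mul g1 (mul_le_mul_of_nonneg_right g2 (by positivity)) (by positivity)
        (by positivity)
    have f3 : ‖(P {v} * R - R) y‖ ≤ n * (2 ^ n * (2 * ε)) * ‖y‖ :=
      ContinuousLinearMap.le_of_opNorm_le _ f2 y
    have f4 : R y - P {v} (R y) = -((P {v} * R - R) y) := by
      show R y - P {v} (R y) = -(P {v} (R y) - R y)
      abel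
    rw [f4, norm_neg]
    refine f3.trans ?_
    have f5 : n * (2 ^ n * (2 * ε)) * ‖y‖ ≤ n * (2 ^ n * (2 * ε)) * (2 * ‖x‖) :=
      mul_le_mul_of_nonneg_left hyn (by positivity)
    refine f5.trans (le_of_eq ?_)
    ring
  have e6 := hd V X P ε h hε hε' T hTc (R y) _ (by positivity) e5
  rw [e4, sub_zero] at e6
  rw [e3]
  refine e6.trans (le_of_eq ?_)
  ring

/-- the products `EE` behave like the products of commuting projections, up to `δ` -/
structure EF {V X : Type} [Fintype V] [DecidableEq V] [NormedAddCommGroup X] [NormedSpace ℂ X]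
    (P : Finset V → X →L[ℂ] X) (E : Finset V → X →L[ℂ] X) (K δ : ℝ) : Prop where
  sum : ∑ A : Finset V, E A = 1
  norm : ∀ A, ‖E A‖ ≤ K
  left : ∀ A T, T ⊆ A → ‖P T * E A - E A‖ ≤ δ
  right : ∀ A T, T ⊆ A → ‖E A * P T - E A‖ ≤ δ
  left0 : ∀ A T, ¬ T ⊆ A → ‖P T * E A‖ ≤ δ
  right0 : ∀ A T, ¬ T ⊆ A → ‖E A * P T‖ ≤ δ
  zero : ∀ A, P A = 0 → ‖E A‖ ≤ δ

/-- **The main estimate.** -/
theorem exists_kas (n : ℕ) : ∃ C : ℝ, 0 ≤ C ∧ ∃ ε₀ : ℝ, 0 < ε₀ ∧ ∀ (V X : Type) [Fintype V] [DecidableEq V]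
    [NormedAddCommGroup X] [NormedSpace ℂ X] [CompleteSpace X] (P : Finset V → X →L[ℂ] X) (ε : ℝ),
    PF P ε → 0 ≤ ε → ε ≤ ε₀ → ∀ l : List V, l.Nodup → (∀ v, v ∈ l) → l.length ≤ n →
    EF P (fun A => EE (fun v => P {v}) l A) (2 ^ n) (C * ε) := by
  obtain ⟨C, hC, ε₀, hε₀, hp⟩ := exists_prod n
  refine ⟨C * 2 ^ n + n * (n * (2 ^ n * 2)) * 2 + n * (2 ^ n * 2), by positivity, ε₀, hε₀, ?_⟩
  intro V X _ _ _ _ _ P ε h hε hε' l hnd hm hl
  set K : ℝ := n * (2 ^ n * (2 * ε)) with hK
  have hK0 : 0 ≤ K := by positivity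
  have hCε : 0 ≤ C * ε := by positivity
  have hF : ∀ (A : Finset V) (v : V), ‖(if v ∈ A then P {v} else 1 - P {v})‖ ≤ 2 := by
    intro A v
    split_ifs
    · exact (h.norm _).trans (by norm_num)
    · exact h.one_sub _
  have hQ : ∀ (A : Finset V) (u v : V),
      ‖P {u} * (if v ∈ A then P {v} else 1 - P {v}) - (if v ∈ A then P {v} else 1 - P {v}) * P {u}‖ ≤
        2 * ε := by
    intro A u v
    split_ifs
    · exact h.comm hε u v
    · have e1 : P {u} * (1 - P {v}) - (1 - P {v}) * P {u} = -(P {u} * P {v} - P {v} * P {u}) := by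
        noncomm_ring
      rw [e1, norm_neg]
      exact h.comm hε u v
  have hE : ∀ A, ‖EE (fun v => P {v}) l A‖ ≤ 2 ^ n := fun A =>
    (prod_norm (hF A) l).trans (pow_le_pow_right₀ (by norm_num) hl)
  -- one vertex
  have hone : ∀ (A : Finset V) (v : V),
      (v ∈ A → ‖P {v} * EE (fun v => P {v}) l A - EE (fun v => P {v}) l A‖ ≤ K ∧
        ‖EE (fun v => P {v}) l A * P {v} - EE (fun v => P {v}) l A‖ ≤ K) ∧
      (v ∉ A → ‖P {v} * EE (fun v => P {v}) l A‖ ≤ K ∧ ‖EE (fun v => P {v}) l A * P {v}‖ ≤ K) := by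
    intro A v
    obtain ⟨s, t, hst⟩ := List.append_of_mem (hm v)
    have e1 := prod_left (hF A) (Q := P {v}) (c := 2 * ε) (by positivity) (fun u => hQ A v u) s t v
      (n := n) (by rw [← hst]; exact hl)
    have e2 := prod_right (hF A) (Q := P {v}) (c := 2 * ε) (by positivity) (fun u => hQ A v u) s t v
      (n := n) (by rw [← hst]; exact hl)
    rw [← hst] at e1 e2
    have hEE : EE (fun v => P {v}) l A =
        (s.map fun v => if v ∈ A then P {v} else 1 - P {v}).prod *
          (if v ∈ A then P {v} else 1 - P {v}) *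
          (t.map fun v => if v ∈ A then P {v} else 1 - P {v}).prod := by
      unfold EE
      rw [hst, List.map_append, List.prod_append, List.map_cons, List.prod_cons, mul_assoc]
    constructor
    · intro hv
      rw [if_pos hv] at e1 e2 hEE
      rw [h.idem, ← hEE] at e1 e2
      exact ⟨e1, e2⟩
    · intro hv
      rw [if_neg hv] at e1 e2
      have f1 : P {v} * (1 - P {v}) = 0 := by rw [mul_sub, mul_one, h.idem, sub_self]
      have f2 : (1 - P {v}) * P {v} = 0 := by rw [sub_mul, one_mul, h.idem, sub_self]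
      rw [f1, mul_zero, zero_mul, sub_zero] at e1
      rw [f2, mul_zero, zero_mul, sub_zero] at e2
      exact ⟨e1, e2⟩
  have hKle : K ≤ (C * 2 ^ n + n * (n * (2 ^ n * 2)) * 2 + n * (2 ^ n * 2)) * ε := by
    have e1 : (C * 2 ^ n + n * (n * (2 ^ n * 2)) * 2 + n * (2 ^ n * 2)) * ε =
        K + (C * 2 ^ n + n * (n * (2 ^ n * 2)) * 2) * ε := by
      rw [hK]
      ring
    rw [e1]
    have : 0 ≤ (C * 2 ^ n + n * (n * (2 ^ n * 2)) * 2) * ε := by positivity
    linarith
  -- lists
  have hlist : ∀ (A : Finset V) (m : List V), (∀ v ∈ m, v ∈ A) →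
      ‖(m.map fun v => P {v}).prod * EE (fun v => P {v}) l A - EE (fun v => P {v}) l A‖ ≤ m.length * K ∧
      ‖EE (fun v => P {v}) l A * (m.map fun v => P {v}).prod - EE (fun v => P {v}) l A‖ ≤
        m.length * K := by
    intro A m hm'
    set E := EE (fun v => P {v}) l A with hEd
    have hprod1 : ∀ m' : List V, ‖(m'.map fun v => P {v}).prod‖ ≤ 1 := by
      intro m'
      induction m' with
      | nil =>
        rw [List.map_nil, List.prod_nil]
        exact ContinuousLinearMap.norm_id_le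
      | cons w m' ih =>
        rw [List.map_cons, List.prod_cons]
        refine (norm_mul_le _ _).trans ?_
        calc ‖P {w}‖ * ‖(m'.map fun v => P {v}).prod‖ ≤ 1 * 1 :=
              mul_le_mul (h.norm _) ih (norm_nonneg _) (by norm_num)
          _ = 1 := one_mul _
    induction m with
    | nil =>
      rw [List.map_nil, List.prod_nil, one_mul, mul_one, sub_self, norm_zero, List.length_nil,
        Nat.cast_zero, zero_mul]
      exact ⟨le_refl _, le_refl _⟩
    | cons w m ih =>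
      obtain ⟨i1, i2⟩ := ih fun v hv => hm' v (List.mem_cons_of_mem w hv)
      obtain ⟨o1, o2⟩ := (hone A w).1 (hm' w List.mem_cons_self)
      rw [← hEd] at o1 o2
      set R := (m.map fun v => P {v}).prod with hR
      rw [List.map_cons, List.prod_cons, ← hR, List.length_cons]
      push_cast
      constructor
      · have e1 : P {w} * R * E - E = P {w} * (R * E - E) + (P {w} * E - E) := by noncomm_ring
        rw [e1]
        have e2 : ‖P {w} * (R * E - E)‖ ≤ 1 * (m.length * K) :=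
          (norm_mul_le _ _).trans (mul_le_mul (h.norm _) i1 (norm_nonneg _) (by norm_num))
        have e3 := norm_add_le (P {w} * (R * E - E)) (P {w} * E - E)
        linarith
      · have e1 : E * (P {w} * R) - E = (E * P {w} - E) * R + (E * R - E) := by noncomm_ring
        rw [e1]
        have e2 : ‖(E * P {w} - E) * R‖ ≤ K * 1 :=
          (norm_mul_le _ _).trans (mul_le_mul o2 (hprod1 m) (norm_nonneg _) hK0)
        have e3 := norm_add_le ((E * P {w} - E) * R) (E * R - E)
        linarith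
  have hT : ∀ T : Finset V, ‖P T - (T.toList.map fun v => P {v}).prod‖ ≤ C * ε ∧
      (T.toList.length : ℝ) ≤ n := by
    intro T
    have e1 : T.toList.length ≤ n := by
      rw [length_toList]
      refine le_trans (card_le_card (t := l.toFinset) fun v _ => List.mem_toFinset.2 (hm v)) ?_
      exact (List.toFinset_card_le l).trans hl
    have e2 := hp V X P ε h hε hε' T.toList e1
    rw [toList_toFinset, norm_sub_rev] at e2
    exact ⟨e2, by exact_mod_cast e1⟩
  have hfin : C * ε * 2 ^ n + n * K ≤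
      (C * 2 ^ n + n * (n * (2 ^ n * 2)) * 2 + n * (2 ^ n * 2)) * ε := by
    have e1 : (C * 2 ^ n + n * (n * (2 ^ n * 2)) * 2 + n * (2 ^ n * 2)) * ε =
        (C * ε * 2 ^ n + n * K) + (n * (n * (2 ^ n * 2)) + n * (2 ^ n * 2)) * ε := by
      rw [hK]
      ring
    rw [e1]
    have : 0 ≤ (n * (n * (2 ^ n * 2)) + n * (2 ^ n * 2)) * ε := by positivity
    linarith
  have hleft : ∀ A T : Finset V, T ⊆ A →
      ‖P T * EE (fun v => P {v}) l A - EE (fun v => P {v}) l A‖ ≤
        (C * 2 ^ n + n * (n * (2 ^ n * 2)) * 2 + n * (2 ^ n * 2)) * ε := by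
    intro A T hTA
    set E := EE (fun v => P {v}) l A with hEd
    obtain ⟨t1, t2⟩ := hT T
    have i1 := (hlist A T.toList fun v hv => hTA (mem_toList.1 hv)).1
    rw [← hEd] at i1
    set R := (T.toList.map fun v => P {v}).prod with hR
    have e1 : P T * E - E = (P T - R) * E + (R * E - E) := by noncomm_ring
    rw [e1]
    have e2 : ‖(P T - R) * E‖ ≤ C * ε * 2 ^ n :=
      (norm_mul_le _ _).trans (mul_le_mul t1 (hE A) (norm_nonneg _) hCε)
    have e3 := norm_add_le ((P T - R) * E) (R * E - E)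
    have e4 : (T.toList.length : ℝ) * K ≤ n * K := mul_le_mul_of_nonneg_right t2 hK0
    linarith
  have hright : ∀ A T : Finset V, T ⊆ A →
      ‖EE (fun v => P {v}) l A * P T - EE (fun v => P {v}) l A‖ ≤
        (C * 2 ^ n + n * (n * (2 ^ n * 2)) * 2 + n * (2 ^ n * 2)) * ε := by
    intro A T hTA
    set E := EE (fun v => P {v}) l A with hEd
    obtain ⟨t1, t2⟩ := hT T
    have i1 := (hlist A T.toList fun v hv => hTA (mem_toList.1 hv)).2
    rw [← hEd] at i1
    set R := (T.toList.map fun v => P {v}).prod with hR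
    have e1 : E * P T - E = E * (P T - R) + (E * R - E) := by noncomm_ring
    rw [e1]
    have e2 : ‖E * (P T - R)‖ ≤ 2 ^ n * (C * ε) :=
      (norm_mul_le _ _).trans (mul_le_mul (hE A) t1 (norm_nonneg _) (by positivity))
    have e3 := norm_add_le (E * (P T - R)) (E * R - E)
    have e4 : (T.toList.length : ℝ) * K ≤ n * K := mul_le_mul_of_nonneg_right t2 hK0
    linarith
  refine ⟨EE_sum _ hnd hm, hE, hleft, hright, ?_, ?_, ?_⟩
  · intro A T hTA
    obtain ⟨v, hvT, hvA⟩ := not_subset.1 hTA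
    obtain ⟨o1, o2⟩ := (hone A v).2 hvA
    have e1 : P T * EE (fun v => P {v}) l A = P T * (P {v} * EE (fun v => P {v}) l A) := by
      rw [← mul_assoc, h.hi {v} T (singleton_subset_iff.2 hvT)]
    show ‖P T * EE (fun v => P {v}) l A‖ ≤ _
    rw [e1]
    refine ((norm_mul_le _ _).trans (mul_le_mul (h.norm T) o1 (norm_nonneg _) zero_le_one)).trans ?_
    rw [one_mul]
    exact hKle
  · intro A T hTA
    obtain ⟨v, hvT, hvA⟩ := not_subset.1 hTA
    obtain ⟨o1, o2⟩ := (hone A v).2 hvA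
    have e1 : EE (fun v => P {v}) l A * P T = EE (fun v => P {v}) l A * P {v} * P T := by
      rw [mul_assoc, h.lo {v} T (singleton_subset_iff.2 hvT)]
    show ‖EE (fun v => P {v}) l A * P T‖ ≤ _
    rw [e1]
    refine ((norm_mul_le _ _).trans (mul_le_mul o2 (h.norm T) (norm_nonneg _) hK0)).trans ?_
    rw [mul_one]
    exact hKle
  · intro A hA
    have e1 := hleft A A (Subset.refl _)
    rw [hA, zero_mul, zero_sub, norm_neg] at e1
    exact e1

end Pool.Agent.H45.BD
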